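import Pool.Agent.Y152.RP.Stm
import Pool.Agent.Y742.AR.Unit

/-!
RP-FINA: finitely many solutions with a given exponent.
-/

set_option autoImplicit false

namespace Pool.Agent.Y474.RP

open NumberField IsDedekindDomain Filter
open Pool.Agent.Y742.SF Pool.Agent.Y742.AR Pool.Agent.Y152.RP

variable {K : Type} [Field K] [NumberField K]

theorem fv_eq (w : HeightOneSpectrum (𝓞 K)) (x : K) :
    Pool.Agent.Y152.RP.fv w x = Pool.Agent.Y742.SF.fv w x := rfl

/-- the places which are not away from `D` -/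
theorem finite_notAway (D : ℕ) : {w : HeightOneSpectrum (𝓞 K) | ¬ Away D w}.Finite := by
  refine (finite_primes (K := K) D.factorial (Nat.factorial_ne_zero D)).subset fun w hw => ?_
  have hw' : ¬ Away D w := hw
  unfold Away at hw'
  push Not at hw'
  obtain ⟨p, hp, hpD, h1⟩ := hw'
  have h2 : ((p : 𝓞 K)) ∈ w.asIdeal := by
    by_contra h3
    apply h1
    rw [fv_eq]
    have h4 : ((p : 𝓞 K) : K) = (p : K) := by simp
    rw [← h4]
    exact (fv_eq_one_iff w (p : 𝓞 K)).2 h3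
  show ((D.factorial : ℕ) : 𝓞 K) ∈ w.asIdeal
  obtain ⟨c, hc⟩ := (Nat.dvd_factorial hp.pos hpD)
  rw [hc]
  push_cast
  exact Ideal.mul_mem_right _ _ h2

theorem finA : FinAStm := by
  classical
  intro K _ _ _ hi D a ha0 hane _ e
  rcases Nat.eq_zero_or_pos e with he | he
  · subst he
    refine Set.finite_empty.subset fun κ hκ => ?_
    exact absurd hκ.1 (lt_irrefl 0)
  obtain ⟨A, hA⟩ : ∃ A : Fin 3 → K, A = fun i => (a i : K) ^ e := ⟨_, rfl⟩
  have hAinj : ∀ i j, i ≠ j → A i ≠ A j := by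
    intro i j hij h
    apply hane i j hij
    rw [hA] at h
    have h1 : (a i : K) ^ e = (a j : K) ^ e := h
    have h2 : (a i) ^ e = (a j) ^ e := by exact_mod_cast h1
    have h3 : |a i| ^ e = |a j| ^ e := by rw [← abs_pow, ← abs_pow, h2]
    exact (pow_left_inj₀ (abs_nonneg _) (abs_nonneg _) he.ne').1 h3
  by_contra hinf
  have hinf' : Set.Infinite {κ : K | Sol K D a e κ} := hinf
  have hinf2 : Set.Infinite ({κ : K | Sol K D a e κ} \ Set.range A) :=
    hinf'.sdiff (Set.finite_range A)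
  let κ : ℕ → K := fun t => (hinf2.natEmbedding _ t : K)
  have hκinj : Function.Injective κ := fun s t h =>
    (hinf2.natEmbedding _).injective (Subtype.ext h)
  have hκS : ∀ t, Sol K D a e (κ t) := fun t => (hinf2.natEmbedding _ t).2.1
  have hκA : ∀ t i, A i ≠ κ t := fun t i h => (hinf2.natEmbedding _ t).2.2 ⟨i, h⟩
  obtain ⟨U, hU⟩ : ∃ U : Fin 3 → ℕ → K, U = fun i t => A i - κ t := ⟨_, rfl⟩
  have hU0 : ∀ i t, U i t ≠ 0 := by
    intro i t
    rw [hU]
    exact sub_ne_zero.2 (hκA t i)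
  have hUfv : ∀ i t (w : HeightOneSpectrum (𝓞 K)), Away D w →
      Pool.Agent.Y742.SF.fv w (U i t) = max 1 (Pool.Agent.Y742.SF.fv w (κ t)) := by
    intro i t w hw
    rw [hU, hA]
    exact (hκS t).2.2 i w hw
  obtain ⟨D', hD'⟩ := exists_PD (K := K) hi {w | ¬ Away D w} (finite_notAway D)
  have hTInt : ∀ i j t, D'.TInt (U i t / U j t) := by
    intro i j t w hw
    have hAw : Away D w := by
      by_contra h
      obtain ⟨v, hv⟩ := hD' w h
      exact hw v hv
    rw [fv_div, hUfv i t w hAw, hUfv j t w hAw]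
    exact (div_self (lt_of_lt_of_le one_pos (le_max_left _ _)).ne').le
  set 𝒰 : Ultrafilter ℕ := Filter.hyperfilter ℕ with h𝒰
  have hTI : ∀ i j, TI D' 𝒰 (fun t => U i t / U j t) := by
    intro i j
    refine ⟨1, one_ne_zero, Filter.Eventually.of_forall fun t => ?_⟩
    have h1 : ((1 : 𝓞 K) : K) * (U i t / U j t) = U i t / U j t := by simp
    rw [h1]
    exact hTInt i j t
  let u : Fin 3 → GK K 𝒰 := fun i => gm 𝒰 (fun t => U i t / U 0 t)
  have hrep : ∀ i, ∀ᶠ t in (𝒰 : Filter ℕ), rep (u i) t = U i t / U 0 t := fun i => rep_gm _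
  have hu0 : ∀ i, u i ≠ 0 := by
    intro i
    refine ne_of_rep _ ?_
    filter_upwards [hrep i] with t ht
    rw [ht]
    exact div_ne_zero (hU0 i t) (hU0 0 t)
  have hu1 : ∀ i, TI D' 𝒰 (rep (u i)) := by
    intro i
    refine (hTI i 0).congr ?_
    filter_upwards [hrep i] with t ht
    exact ht.symm
  have hu2 : ∀ i, TI D' 𝒰 (rep (u i)⁻¹) := by
    intro i
    refine (hTI 0 i).congr ?_
    filter_upwards [hrep i, rep_inv (u i) (hu0 i)] with t h1 h2
    rw [h2, h1, inv_div]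
  -- the linear relation
  have hlin : ∑ i, cg 𝒰 ((![A 1 - A 2, A 2 - A 0, A 0 - A 1] : Fin 3 → K) i) * u i = 0 := by
    rw [Fin.sum_univ_three]
    simp only [Matrix.cons_val_zero, Matrix.cons_val_one, Matrix.cons_val]
    have h1 : cg 𝒰 (A 1 - A 2) * u 0 + cg 𝒰 (A 2 - A 0) * u 1 + cg 𝒰 (A 0 - A 1) * u 2 =
        gm 𝒰 (fun t => (A 1 - A 2) * (U 0 t / U 0 t) + (A 2 - A 0) * (U 1 t / U 0 t) +
          (A 0 - A 1) * (U 2 t / U 0 t)) := by
      have h2 : (fun t => (A 1 - A 2) * (U 0 t / U 0 t) + (A 2 - A 0) * (U 1 t / U 0 t) +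
          (A 0 - A 1) * (U 2 t / U 0 t)) =
          (fun _ => A 1 - A 2) * (fun t => U 0 t / U 0 t) +
            (fun _ => A 2 - A 0) * (fun t => U 1 t / U 0 t) +
            (fun _ => A 0 - A 1) * (fun t => U 2 t / U 0 t) := rfl
      rw [h2, map_add, map_add, map_mul, map_mul, map_mul]
      rfl
    rw [h1]
    have h3 : (fun t => (A 1 - A 2) * (U 0 t / U 0 t) + (A 2 - A 0) * (U 1 t / U 0 t) +
          (A 0 - A 1) * (U 2 t / U 0 t)) = 0 := by
      funext t
      have h4 := hU0 0 t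
      show (A 1 - A 2) * (U 0 t / U 0 t) + (A 2 - A 0) * (U 1 t / U 0 t) +
          (A 0 - A 1) * (U 2 t / U 0 t) = 0
      have h5 : (A 1 - A 2) * U 0 t + (A 2 - A 0) * U 1 t + (A 0 - A 1) * U 2 t = 0 := by
        rw [hU]
        ring
      have h6 : (A 1 - A 2) * (U 0 t / U 0 t) + (A 2 - A 0) * (U 1 t / U 0 t) +
          (A 0 - A 1) * (U 2 t / U 0 t) =
          ((A 1 - A 2) * U 0 t + (A 2 - A 0) * U 1 t + (A 0 - A 1) * U 2 t) / U 0 t := by ring
      rw [h6, h5, zero_div]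
    rw [h3, map_zero]
  have hc0 : (![A 1 - A 2, A 2 - A 0, A 0 - A 1] : Fin 3 → K) ≠ 0 := by
    intro h
    have h1 := congrFun h 0
    exact hAinj 1 2 (by decide) (sub_eq_zero.1 h1)
  have hex : ∃ i j, i ≠ j ∧ ∃ c, u i / u j = cg 𝒰 c := by
    by_contra hcon
    push Not at hcon
    exact hc0 (unit_ind D' 3 u hu0 hu1 hu2 hcon _ hlin)
  obtain ⟨i, j, hij, c, hc⟩ := hex
  have h1 : ∀ᶠ t in (𝒰 : Filter ℕ), U i t = c * U j t := by
    have h2 := rep_eq (u i / u j) (fun _ => c) hc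
    filter_upwards [h2, rep_div (u i) (u j) (hu0 j), hrep i, hrep j] with t g1 g2 g3 g4
    rw [g2, g3, g4] at g1
    have g5 := hU0 0 t
    have g6 := hU0 j t
    field_simp at g1
    linear_combination g1
  have hc1 : c ≠ 1 := by
    rintro rfl
    obtain ⟨t, ht⟩ := h1.exists
    apply hAinj i j hij
    rw [hU] at ht
    linear_combination ht
  have h2 : ∀ᶠ t in (𝒰 : Filter ℕ), κ t = (A i - c * A j) / (1 - c) := by
    filter_upwards [h1] with t ht
    have h3 : (1 : K) - c ≠ 0 := sub_ne_zero.2 hc1.symm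
    rw [eq_div_iff h3]
    rw [hU] at ht
    linear_combination (-1 : K) * ht
  have h3 : {t : ℕ | κ t = (A i - c * A j) / (1 - c)}.Finite := by
    refine Set.Subsingleton.finite ?_
    intro s hs t ht
    exact hκinj (hs.trans ht.symm)
  exact h3.notMem_hyperfilter h2

end Pool.Agent.Y474.RP
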